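import Mathlib

set_option autoImplicit false

/-!
# Concentrators (the combinatorial lemma of Kalton and Roberts)
-/

namespace Q204.KR

/-- `s ^ s ≤ 3 ^ s * s !` -/
theorem pow_self_le (s : ℕ) : (s : ℝ) ^ s ≤ 3 ^ s * (s.factorial : ℝ) := by
  have h1 := Real.pow_div_factorial_le_exp (x := (s : ℝ)) (Nat.cast_nonneg s) s
  have h2 : Real.exp (s : ℝ) ≤ 3 ^ s := by
    have h3 : Real.exp (s : ℝ) = Real.exp 1 ^ s := by
      rw [← Real.exp_nat_mul, mul_one]
    rw [h3]
    exact pow_le_pow_left₀ (Real.exp_pos 1).le (by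
      have := Real.exp_one_lt_d9
      linarith) s
  have h4 : (0 : ℝ) < s.factorial := by exact_mod_cast Nat.factorial_pos s
  rw [div_le_iff₀ h4] at h1
  calc (s : ℝ) ^ s ≤ Real.exp s * s.factorial := h1
    _ ≤ 3 ^ s * s.factorial := mul_le_mul_of_nonneg_right h2 h4.le

/-- The main estimate. -/
theorem term_le {m l k s : ℕ} (hl : 0 < l) (hk : 27 * (m * k) ≤ l ^ 2) (hs : s ≤ k) :
    ((m.choose s : ℝ) * (l.choose s : ℝ)) * ((s : ℝ) / l) ^ (3 * s) ≤ (1 / 3) ^ s := by
  have hl' : (0 : ℝ) < l := by exact_mod_cast hl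
  have hf : (0 : ℝ) < s.factorial := by exact_mod_cast Nat.factorial_pos s
  have h1 : (m.choose s : ℝ) ≤ (m : ℝ) ^ s / s.factorial := Nat.choose_le_pow_div s m
  have h2 : (l.choose s : ℝ) ≤ (l : ℝ) ^ s / s.factorial := Nat.choose_le_pow_div s l
  have h3 := pow_self_le s
  have h4 : (s : ℝ) ^ s / s.factorial ≤ 3 ^ s := by
    rw [div_le_iff₀ hf]
    exact h3
  have h5 : (m.choose s : ℝ) * (l.choose s : ℝ) ≤
      ((m : ℝ) ^ s / s.factorial) * ((l : ℝ) ^ s / s.factorial) :=
    mul_le_mul h1 h2 (Nat.cast_nonneg _) (by positivity)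
  calc ((m.choose s : ℝ) * (l.choose s : ℝ)) * ((s : ℝ) / l) ^ (3 * s)
      ≤ (((m : ℝ) ^ s / s.factorial) * ((l : ℝ) ^ s / s.factorial)) * ((s : ℝ) / l) ^ (3 * s) :=
        mul_le_mul_of_nonneg_right h5 (by positivity)
    _ = ((s : ℝ) ^ s / s.factorial) ^ 2 * (((m : ℝ) * s) / l ^ 2) ^ s := by
        have e1 : ((s : ℝ) / l) ^ (3 * s) = ((s : ℝ) ^ s) ^ 3 / ((l : ℝ) ^ s) ^ 3 := by
          rw [div_pow, ← pow_mul, ← pow_mul, mul_comm 3 s]
        have e2 : (((m : ℝ) * s) / l ^ 2) ^ s = (m : ℝ) ^ s * (s : ℝ) ^ s / ((l : ℝ) ^ s) ^ 2 := by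
          rw [div_pow, mul_pow, ← pow_mul, ← pow_mul, mul_comm 2 s]
        rw [e1, e2]
        have hls : (l : ℝ) ^ s ≠ 0 := (pow_pos hl' s).ne'
        field_simp
    _ ≤ (3 ^ s) ^ 2 * (1 / 27) ^ s := by
        apply mul_le_mul
        · exact pow_le_pow_left₀ (by positivity) h4 2
        · apply pow_le_pow_left₀ (by positivity)
          rw [div_le_iff₀ (by positivity)]
          have h6 : ((27 * (m * k) : ℕ) : ℝ) ≤ ((l ^ 2 : ℕ) : ℝ) := by exact_mod_cast hk
          push_cast at h6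
          have h7 : (s : ℝ) ≤ k := by exact_mod_cast hs
          have h8 : (m : ℝ) * s ≤ m * k := mul_le_mul_of_nonneg_left h7 (Nat.cast_nonneg _)
          linarith
        · positivity
        · positivity
    _ = (1 / 3) ^ s := by
        rw [← pow_mul, mul_comm s 2, pow_mul, ← mul_pow]
        norm_num

theorem sum_geom (k : ℕ) : ∑ s ∈ Finset.Icc 1 k, ((1 : ℝ) / 3) ^ s < 1 := by
  have h : ∀ k : ℕ, ∑ s ∈ Finset.Icc 1 k, ((1 : ℝ) / 3) ^ s = 1 / 2 - (1 / 2) * (1 / 3) ^ k := by
    intro k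
    induction k with
    | zero => simp
    | succ k ih =>
      rw [Finset.sum_Icc_succ_top (by omega), ih]
      ring
  rw [h]
  have : (0 : ℝ) < (1 / 3) ^ k := by positivity
  linarith

/-- Existence of concentrators. -/
theorem conc {m l k : ℕ} (hl : 0 < l) (hkl : k ≤ l) (hk : 27 * (m * k) ≤ l ^ 2) :
    ∃ R : Fin m → (Fin 3 → Fin l), ∀ E : Finset (Fin m), E.card ≤ k →
      E.card ≤ (E.biUnion (fun i => Finset.univ.image (R i))).card := by
  classical
  by_contra hcon
  push Not at hcon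
  set bad : Finset (Fin m) → Finset (Fin l) → Finset (Fin m → (Fin 3 → Fin l)) := fun E F =>
    Fintype.piFinset (fun i => if i ∈ E then Fintype.piFinset (fun _ => F) else Finset.univ)
    with hbad
  have hcover : (Finset.univ : Finset (Fin m → (Fin 3 → Fin l))) ⊆
      (Finset.Icc 1 k).biUnion (fun s => (Finset.powersetCard s Finset.univ ×ˢ
        Finset.powersetCard s Finset.univ).biUnion (fun x => bad x.1 x.2)) := by
    intro R _
    obtain ⟨E, hE, hE'⟩ := hcon R
    obtain ⟨F, hF, -, hFc⟩ := Finset.exists_subsuperset_card_eq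
      (Finset.subset_univ (E.biUnion (fun i => Finset.univ.image (R i)))) hE'.le (by
        rw [Finset.card_univ, Fintype.card_fin]
        omega)
    rw [Finset.mem_biUnion]
    refine ⟨E.card, Finset.mem_Icc.2 ⟨by omega, hE⟩, ?_⟩
    rw [Finset.mem_biUnion]
    refine ⟨(E, F), ?_, ?_⟩
    · rw [Finset.mem_product]
      exact ⟨Finset.mem_powersetCard.2 ⟨Finset.subset_univ _, rfl⟩,
        Finset.mem_powersetCard.2 ⟨Finset.subset_univ _, hFc⟩⟩
    · rw [hbad]
      simp only [Fintype.mem_piFinset]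
      intro i
      split_ifs with hi
      · rw [Fintype.mem_piFinset]
        intro t
        apply hF
        rw [Finset.mem_biUnion]
        exact ⟨i, hi, Finset.mem_image.2 ⟨t, Finset.mem_univ _, rfl⟩⟩
      · exact Finset.mem_univ _
  have hcard : ∀ (s : ℕ) (E : Finset (Fin m)) (F : Finset (Fin l)), E.card = s → F.card = s →
      (bad E F).card = (s ^ 3) ^ s * (l ^ 3) ^ (m - s) := by
    intro s E F hE hF
    rw [hbad]
    simp only
    rw [Fintype.card_piFinset]
    have : ∀ i : Fin m, (if i ∈ E then Fintype.piFinset (fun _ : Fin 3 => F)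
        else (Finset.univ : Finset (Fin 3 → Fin l))).card = if i ∈ E then s ^ 3 else l ^ 3 := by
      intro i
      split_ifs
      · rw [Fintype.card_piFinset]
        simp [hF]
      · simp
    rw [Finset.prod_congr rfl (fun i _ => this i), Finset.prod_ite]
    simp only [Finset.prod_const]
    have e1 : (Finset.univ.filter (fun i => i ∈ E)).card = s := by
      rw [Finset.filter_mem_eq_inter, Finset.univ_inter, hE]
    have e2 : (Finset.univ.filter (fun i => i ∉ E)).card = m - s := by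
      have := Finset.card_filter_add_card_filter_not (s := (Finset.univ : Finset (Fin m)))
        (fun i => i ∈ E)
      rw [e1, Finset.card_univ, Fintype.card_fin] at this
      omega
    rw [e1, e2]
  have h1 := Finset.card_le_card hcover
  rw [Finset.card_univ] at h1
  simp only [Fintype.card_pi, Fintype.card_fin, Finset.prod_const, Finset.card_univ] at h1
  have h2 : (((l ^ 3) ^ m : ℕ) : ℝ) ≤ ∑ s ∈ Finset.Icc 1 k,
      ((m.choose s : ℝ) * (l.choose s : ℝ)) * ((s : ℝ) ^ 3) ^ s * ((l : ℝ) ^ 3) ^ (m - s) := by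
    refine le_trans (Nat.cast_le.2 h1) ?_
    refine le_trans (Nat.cast_le.2 Finset.card_biUnion_le) ?_
    push_cast
    apply Finset.sum_le_sum
    intro s _
    refine le_trans (Nat.cast_le.2 Finset.card_biUnion_le) ?_
    push_cast
    have h3 : ∀ x ∈ Finset.powersetCard s (Finset.univ : Finset (Fin m)) ×ˢ
        Finset.powersetCard s (Finset.univ : Finset (Fin l)), ((bad x.1 x.2).card : ℝ) =
        ((s : ℝ) ^ 3) ^ s * ((l : ℝ) ^ 3) ^ (m - s) := by
      intro x hx
      rw [Finset.mem_product] at hx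
      rw [hcard s x.1 x.2 (Finset.mem_powersetCard.1 hx.1).2 (Finset.mem_powersetCard.1 hx.2).2]
      push_cast
      ring
    rw [Finset.sum_congr rfl h3, Finset.sum_const, Finset.card_product,
      Finset.card_powersetCard, Finset.card_powersetCard, Finset.card_univ, Finset.card_univ,
      Fintype.card_fin, Fintype.card_fin, nsmul_eq_mul]
    push_cast
    exact (mul_assoc _ _ _).symm.le
  have hl' : (0 : ℝ) < l := by exact_mod_cast hl
  have h4 : ∑ s ∈ Finset.Icc 1 k,
      ((m.choose s : ℝ) * (l.choose s : ℝ)) * ((s : ℝ) ^ 3) ^ s * ((l : ℝ) ^ 3) ^ (m - s) ≤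
      ∑ s ∈ Finset.Icc 1 k, ((1 : ℝ) / 3) ^ s * ((l : ℝ) ^ 3) ^ m := by
    apply Finset.sum_le_sum
    intro s hs
    rw [Finset.mem_Icc] at hs
    by_cases hsm : s ≤ m
    · have h5 := term_le (m := m) (s := s) hl hk hs.2
      have h6 : ((m.choose s : ℝ) * (l.choose s : ℝ)) * ((s : ℝ) ^ 3) ^ s *
          ((l : ℝ) ^ 3) ^ (m - s) = (((m.choose s : ℝ) * (l.choose s : ℝ)) *
          ((s : ℝ) / l) ^ (3 * s)) * ((l : ℝ) ^ 3) ^ m := by
        have e1 : ((l : ℝ) ^ 3) ^ m = ((l : ℝ) ^ 3) ^ s * ((l : ℝ) ^ 3) ^ (m - s) := by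
          rw [← pow_add, Nat.add_sub_cancel' hsm]
        have e2 : ((s : ℝ) / l) ^ (3 * s) * ((l : ℝ) ^ 3) ^ s = ((s : ℝ) ^ 3) ^ s := by
          rw [pow_mul, ← mul_pow, div_pow]
          congr 1
          field_simp
        rw [e1, ← e2]
        ring
      rw [h6]
      exact mul_le_mul_of_nonneg_right h5 (by positivity)
    · rw [Nat.choose_eq_zero_of_lt (by omega)]
      simp only [Nat.cast_zero, zero_mul]
      positivity
  rw [← Finset.sum_mul] at h4
  have h7 := sum_geom k
  have h8 : (0 : ℝ) < ((l : ℝ) ^ 3) ^ m := by positivity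
  have h9 := mul_lt_mul_of_pos_right h7 h8
  push_cast at h2
  linarith

end Q204.KR
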