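import Pool.Agent.Q204.KR.Meas

set_option autoImplicit false

/-!
# The countably additive part of a finitely additive measure
-/

namespace Q204.KR

universe u

open Filter Topology ENNReal

variable {B : Type u} [CompleteBooleanAlgebra B]

/-- `b` is a countable partition of `a`. -/
def Part (a : B) (b : ℕ → B) : Prop := (∀ i j, i ≠ j → Disjoint (b i) (b j)) ∧ ⨆ n, b n = a

/-- Finitely additive finite strictly positive. -/
structure Fin0 (N : B → ℝ≥0∞) : Prop where
  add : ∀ a b, Disjoint a b → N (a ⊔ b) = N a + N b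
  fin : N ⊤ ≠ ∞
  pos : ∀ a, a ≠ ⊥ → N a ≠ 0

theorem Fin0.mono {N : B → ℝ≥0∞} (h : Fin0 N) {a b : B} (hab : a ≤ b) : N a ≤ N b := by
  have h1 := h.add a (b \ a) disjoint_sdiff_self_right
  rw [sup_sdiff_cancel_right hab] at h1
  rw [h1]
  exact le_self_add

theorem Fin0.ne_top {N : B → ℝ≥0∞} (h : Fin0 N) (a : B) : N a ≠ ∞ :=
  ne_top_of_le_ne_top h.fin (h.mono le_top)

theorem Fin0.bot {N : B → ℝ≥0∞} (h : Fin0 N) : N ⊥ = 0 := by
  have h1 := h.add ⊥ ⊥ disjoint_bot_left
  rw [bot_sup_eq] at h1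
  have h2 := h.ne_top ⊥
  by_contra h3
  have h4 : N ⊥ < N ⊥ + N ⊥ := ENNReal.lt_add_right h2 h3
  exact absurd h1 h4.ne

theorem Fin0.sum_le {N : B → ℝ≥0∞} (h : Fin0 N) (b : ℕ → B) (c : B)
    (hb : ∀ i j, i ≠ j → Disjoint (b i) (b j)) (hc : ∀ i, b i ≤ c) (E : Finset ℕ) :
    ∑ n ∈ E, N (b n) ≤ N c := by
  classical
  have key : ∑ n ∈ E, N (b n) = N (E.sup b) := by
    induction E using Finset.induction_on with
    | empty => simp [h.bot]
    | insert i s hi ih =>
      rw [Finset.sup_insert, Finset.sum_insert hi, ih, h.add]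
      rw [Finset.disjoint_sup_right]
      intro j hj
      exact hb i j (fun h => hi (h ▸ hj))
  rw [key]
  exact h.mono (Finset.sup_le (fun i _ => hc i))

theorem Fin0.tsum_le {N : B → ℝ≥0∞} (h : Fin0 N) (b : ℕ → B) (c : B)
    (hb : ∀ i j, i ≠ j → Disjoint (b i) (b j)) (hc : ∀ i, b i ≤ c) :
    ∑' n, N (b n) ≤ N c := by
  rw [ENNReal.tsum_eq_iSup_sum]
  exact iSup_le (fun E => h.sum_le b c hb hc E)

/-- Finite subadditivity. -/
theorem Fin0.sup_le_sum {N : B → ℝ≥0∞} (h : Fin0 N) (b : ℕ → B) (n : ℕ) :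
    N (partialSups b n) ≤ ∑' k, N (b k) := by
  have h1 : ∀ a b : B, N (a ⊔ b) ≤ N a + N b := by
    intro a b
    have h2 : a ⊔ b = a ⊔ (b \ a) := by rw [sup_sdiff_self_right]
    rw [h2, h.add a (b \ a) disjoint_sdiff_self_right]
    exact add_le_add le_rfl (h.mono sdiff_le)
  have h2 : ∀ n, N (partialSups b n) ≤ ∑ k ∈ Finset.range (n + 1), N (b k) := by
    intro n
    induction n with
    | zero => simp
    | succ n ih =>
      rw [partialSups_add_one, Finset.sum_range_succ]
      exact (h1 _ _).trans (add_le_add ih le_rfl)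
  exact (h2 n).trans (ENNReal.sum_le_tsum _)

/-- The countably additive part. -/
noncomputable def cap (N : B → ℝ≥0∞) (a : B) : ℝ≥0∞ :=
  ⨅ (b : ℕ → B) (_ : Part a b), ∑' n, N (b n)

theorem cap_le_of {N : B → ℝ≥0∞} {a : B} {b : ℕ → B} (hb : Part a b) :
    cap N a ≤ ∑' n, N (b n) := iInf₂_le b hb

theorem cap_le {N : B → ℝ≥0∞} (h : Fin0 N) (a : B) : cap N a ≤ N a := by
  have hp : Part a (fun n => if n = 0 then a else ⊥) := by
    constructor
    · intro i j hij
      simp only
      split_ifs <;> simp_all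
    · apply le_antisymm
      · apply iSup_le
        intro n
        simp only
        split_ifs
        · exact le_rfl
        · exact bot_le
      · exact le_iSup_of_le 0 (by simp)
  refine (cap_le_of hp).trans ?_
  rw [tsum_eq_single 0]
  · simp
  · intro n hn
    simp [hn, h.bot]

theorem exists_part {N : B → ℝ≥0∞} (h : Fin0 N) (a : B) {ε : ℝ≥0∞} (hε : ε ≠ 0) :
    ∃ b, Part a b ∧ ∑' n, N (b n) ≤ cap N a + ε := by
  have h1 : cap N a < cap N a + ε :=
    ENNReal.lt_add_right (ne_top_of_le_ne_top (h.ne_top a) (cap_le h a)) hε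
  unfold cap at h1
  rw [iInf_lt_iff] at h1
  obtain ⟨b, hb⟩ := h1
  rw [iInf_lt_iff] at hb
  obtain ⟨hb, hb'⟩ := hb
  exact ⟨b, hb, hb'.le⟩

theorem cap_add {N : B → ℝ≥0∞} (h : Fin0 N) {a : ℕ → B} {s : B} (ha : Part s a) :
    cap N s = ∑' n, cap N (a n) := by
  apply le_antisymm
  · apply ENNReal.le_of_forall_pos_le_add
    intro ε hε _
    obtain ⟨η, hη, hηs⟩ := ENNReal.exists_pos_sum_of_countable (ε := (ε : ℝ≥0∞))
      (by exact_mod_cast hε.ne') ℕ
    choose b hb hb' using fun n => exists_part h (a n) (ε := (η n : ℝ≥0∞))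
      (by exact_mod_cast (hη n).ne')
    have hba : ∀ n k, b n k ≤ a n := fun n k => by
      rw [← (hb n).2]
      exact le_iSup _ _
    have hp : Part s (fun j => b j.unpair.1 j.unpair.2) := by
      constructor
      · intro i j hij
        by_cases h1 : i.unpair.1 = j.unpair.1
        · have h2 : i.unpair.2 ≠ j.unpair.2 := by
            intro h2
            apply hij
            rw [← Nat.pair_unpair i, ← Nat.pair_unpair j, h1, h2]
          show Disjoint (b i.unpair.1 i.unpair.2) (b j.unpair.1 j.unpair.2)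
          rw [h1]
          exact (hb _).1 _ _ h2
        · exact (ha.1 _ _ h1).mono (hba _ _) (hba _ _)
      · rw [← ha.2]
        apply le_antisymm
        · apply iSup_le
          intro j
          exact (hba _ _).trans (le_iSup a _)
        · apply iSup_le
          intro n
          rw [← (hb n).2]
          apply iSup_le
          intro k
          refine le_iSup_of_le (Nat.pair n k) ?_
          show b n k ≤ b (Nat.unpair (Nat.pair n k)).1 (Nat.unpair (Nat.pair n k)).2
          rw [Nat.unpair_pair]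
    refine (cap_le_of hp).trans ?_
    have h1 : ∑' j : ℕ, N (b j.unpair.1 j.unpair.2) = ∑' (n : ℕ) (k : ℕ), N (b n k) := by
      rw [← ENNReal.tsum_prod]
      exact Equiv.tsum_eq Nat.pairEquiv.symm (fun x : ℕ × ℕ => N (b x.1 x.2))
    rw [h1]
    calc ∑' (n : ℕ) (k : ℕ), N (b n k) ≤ ∑' n, (cap N (a n) + η n) := ENNReal.tsum_le_tsum hb'
      _ = ∑' n, cap N (a n) + ∑' n, (η n : ℝ≥0∞) := ENNReal.tsum_add
      _ ≤ ∑' n, cap N (a n) + ε := add_le_add le_rfl hηs.le
  · unfold cap
    apply le_iInf₂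
    intro b hb
    calc ∑' n, cap N (a n) ≤ ∑' (n : ℕ) (k : ℕ), N (b k ⊓ a n) := by
          apply ENNReal.tsum_le_tsum
          intro n
          apply cap_le_of
          constructor
          · intro i j hij
            exact (hb.1 i j hij).mono inf_le_left inf_le_left
          · rw [← iSup_inf_eq, hb.2, ← ha.2]
            exact inf_eq_right.2 (le_iSup a n)
      _ = ∑' (k : ℕ) (n : ℕ), N (b k ⊓ a n) := ENNReal.tsum_comm
      _ ≤ ∑' k, N (b k) := by
          apply ENNReal.tsum_le_tsum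
          intro k
          apply h.tsum_le
          · intro i j hij
            exact (ha.1 i j hij).mono inf_le_right inf_le_right
          · intro i
            exact inf_le_left

/-- Countable subadditivity of a continuous outer measure. -/
theorem outer_le {m : B → ℝ} (hm : IsContOuter m) (e : ℕ → B) (η : ℕ → ℝ) {T : ℝ}
    (he : ∀ n, m (e n) ≤ η n) (hη : ∀ n, ∑ k ∈ Finset.range (n + 1), η k ≤ T) :
    m (⨆ n, e n) ≤ T := by
  obtain ⟨-, -, hmono, hsub, hcont⟩ := hm
  have h1 : ∀ n, m (partialSups e n) ≤ ∑ k ∈ Finset.range (n + 1), η k := by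
    intro n
    induction n with
    | zero => simpa using he 0
    | succ n ih =>
      rw [partialSups_add_one, Finset.sum_range_succ]
      exact (hsub _ _).trans (add_le_add ih (he _))
  have h2 : Tendsto (fun n => m ((⨆ k, e k) \ partialSups e n)) atTop (𝓝 0) := by
    apply hcont
    · intro i j hij
      exact sdiff_le_sdiff_left ((partialSups e).mono hij)
    · rw [eq_bot_iff]
      have h3 : ⨅ n, (⨆ k, e k) \ partialSups e n ≤ (⨆ k, e k) \ (⨆ k, e k) := by
        rw [sdiff_eq (x := ⨆ k, e k) (y := ⨆ k, e k), compl_iSup]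
        refine le_inf ?_ ?_
        · exact (iInf_le _ 0).trans sdiff_le
        · apply le_iInf
          intro k
          refine (iInf_le _ k).trans ?_
          rw [sdiff_eq]
          exact inf_le_right.trans (compl_le_compl (le_partialSups e k))
      rwa [sdiff_self] at h3
  have h3 : ∀ n, m (⨆ k, e k) ≤ T + m ((⨆ k, e k) \ partialSups e n) := by
    intro n
    have h4 : ⨆ k, e k ≤ partialSups e n ⊔ ((⨆ k, e k) \ partialSups e n) := by
      rw [sup_sdiff_self_right]
      exact le_sup_right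
    have h5 := (hmono _ _ h4).trans (hsub _ _)
    have h6 := (h1 n).trans (hη n)
    linarith
  have h4 : Tendsto (fun n => T + m ((⨆ k, e k) \ partialSups e n)) atTop (𝓝 (T + 0)) :=
    h2.const_add T
  have h5 := ge_of_tendsto' h4 h3
  linarith

theorem cap_pos {N : B → ℝ≥0∞} (h : Fin0 N) {m : B → ℝ} (hm : IsContOuter m) {a : B}
    (ha : a ≠ ⊥) : cap N a ≠ 0 := by
  intro hz
  have hma : 0 < m a := hm.2.1 a ha
  choose b hb hb' using fun k : ℕ => exists_part h a (ε := ((k : ℝ≥0∞) + 1)⁻¹) (by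
    rw [ne_eq, ENNReal.inv_eq_zero]
    exact ENNReal.add_ne_top.2 ⟨ENNReal.natCast_ne_top k, ENNReal.one_ne_top⟩)
  have hlim : ∀ k, Tendsto (fun n => m (a \ partialSups (b k) n)) atTop (𝓝 0) := by
    intro k
    apply hm.2.2.2.2
    · intro i j hij
      exact sdiff_le_sdiff_left ((partialSups (b k)).mono hij)
    · rw [eq_bot_iff]
      have h3 : ⨅ n, a \ partialSups (b k) n ≤ a \ a := by
        conv_rhs => rw [sdiff_eq]
        refine le_inf ?_ ?_
        · exact (iInf_le _ 0).trans sdiff_le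
        · conv_rhs => rw [← (hb k).2, compl_iSup]
          apply le_iInf
          intro j
          refine (iInf_le _ j).trans ?_
          rw [sdiff_eq]
          exact inf_le_right.trans (compl_le_compl (le_partialSups (b k) j))
      rwa [sdiff_self] at h3
  have hN : ∀ k : ℕ, ∃ n, m (a \ partialSups (b k) n) ≤ m a / 4 * (1 / 2 : ℝ) ^ k := by
    intro k
    have h1 : 0 < m a / 4 * (1 / 2 : ℝ) ^ k := by positivity
    obtain ⟨n, hn⟩ := ((hlim k).eventually (gt_mem_nhds h1)).exists
    exact ⟨n, hn.le⟩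
  choose n hn using hN
  have hsum : ∀ K : ℕ, ∑ k ∈ Finset.range (K + 1), m a / 4 * (1 / 2 : ℝ) ^ k ≤ m a / 2 := by
    intro K
    rw [← Finset.mul_sum]
    have h1 : ∑ k ∈ Finset.range (K + 1), (1 / 2 : ℝ) ^ k ≤ 2 := by
      have := sum_geometric_two_le (K + 1)
      simpa using this
    nlinarith
  have he := outer_le hm (fun k => a \ partialSups (b k) (n k)) _ hn hsum
  set e := ⨆ k, a \ partialSups (b k) (n k) with hedef
  have hd : a \ e ≠ ⊥ := by
    intro hd
    rw [sdiff_eq_bot_iff] at hd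
    have := hm.2.2.1 _ _ hd
    linarith
  have hdk : ∀ k, a \ e ≤ partialSups (b k) (n k) := by
    intro k
    have h1 : a \ partialSups (b k) (n k) ≤ e := le_iSup (fun k => a \ partialSups (b k) (n k)) k
    calc a \ e ≤ a \ (a \ partialSups (b k) (n k)) := sdiff_le_sdiff_left h1
      _ = a ⊓ partialSups (b k) (n k) := sdiff_sdiff_right_self
      _ ≤ _ := inf_le_right
  apply h.pos _ hd
  by_contra hne
  have hle : ∀ k : ℕ, N (a \ e) ≤ ((k : ℝ≥0∞) + 1)⁻¹ := by
    intro k
    refine (h.mono (hdk k)).trans ((h.sup_le_sum _ _).trans ((hb' k).trans ?_))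
    rw [hz, zero_add]
  obtain ⟨k, hk⟩ := ENNReal.exists_inv_nat_lt hne
  have h1 := hle k
  have h2 : ((k : ℝ≥0∞) + 1)⁻¹ ≤ (k : ℝ≥0∞)⁻¹ := ENNReal.inv_le_inv.2 le_self_add
  exact absurd (h1.trans h2) (not_le.2 hk)

end Q204.KR
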