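import Mathlib

set_option autoImplicit false

/-!
# Measures and continuous outer measures on Boolean algebras
-/

namespace Q204.KR

universe u

/-- A measure on a Boolean algebra: nonnegative, strictly positive and countably additive. -/
def IsMeasure {A : Type u} [BooleanAlgebra A] (μ : A → ℝ) : Prop :=
  (∀ a, 0 ≤ μ a) ∧ (∀ a, a ≠ ⊥ → 0 < μ a) ∧
    ∀ (a : ℕ → A) (s : A), (∀ i j, i ≠ j → Disjoint (a i) (a j)) → IsLUB (Set.range a) s →
      HasSum (fun n => μ (a n)) (μ s)

/-- A continuous outer measure on a complete Boolean algebra. -/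
def IsContOuter {B : Type u} [CompleteBooleanAlgebra B] (m : B → ℝ) : Prop :=
  m ⊥ = 0 ∧ (∀ a, a ≠ ⊥ → 0 < m a) ∧ (∀ a b, a ≤ b → m a ≤ m b) ∧
    (∀ a b, m (a ⊔ b) ≤ m a + m b) ∧
    ∀ a : ℕ → B, Antitone a → ⨅ n, a n = ⊥ →
      Filter.Tendsto (fun n => m (a n)) Filter.atTop (nhds 0)

/-- A complete subalgebra: a subalgebra closed under all suprema and infima of `B`. -/
def IsCompleteSub {B : Type u} [CompleteBooleanAlgebra B] (C : BooleanSubalgebra B) : Prop :=
  ∀ S : Set B, S ⊆ C → sSup S ∈ C ∧ sInf S ∈ C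

/-- `C` is the smallest complete subalgebra containing some countable set. -/
def CountGen {B : Type u} [CompleteBooleanAlgebra B] (C : BooleanSubalgebra B) : Prop :=
  IsCompleteSub C ∧ ∃ S : Set B, S.Countable ∧ S ⊆ C ∧
    ∀ D : BooleanSubalgebra B, IsCompleteSub D → S ⊆ D → C ≤ D

end Q204.KR
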