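import Pool.Agent.Q204.KR.Conc

set_option autoImplicit false

/-!
# Uniformly exhaustive submeasures and intersection numbers (Kalton and Roberts)
-/

namespace Q204.KR

universe u

variable {B : Type u} [BooleanAlgebra B]

/-- The points of the Stone space, as prime ideals. -/
abbrev Pt (B : Type u) [BooleanAlgebra B] := {J : Order.Ideal B // J.IsPrime}

/-- The point `J` belongs to `b`. -/
def At (J : Pt B) (b : B) : Prop := b ∉ J.1

theorem At.mono {J : Pt B} {a b : B} (h : a ≤ b) (ha : At J a) : At J b :=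
  fun hb => ha (J.1.lower h hb)

theorem at_top (J : Pt B) : At J ⊤ := by
  intro h
  exact J.2.toIsProper.ne_top (Order.Ideal.top_of_top_mem h)

theorem not_at_bot (J : Pt B) : ¬ At J ⊥ := fun h => h J.1.bot_mem

theorem at_sup {J : Pt B} {a b : B} : At J (a ⊔ b) ↔ At J a ∨ At J b := by
  unfold At
  rw [Order.Ideal.sup_mem_iff, not_and_or]

theorem at_inf {J : Pt B} {a b : B} : At J (a ⊓ b) ↔ At J a ∧ At J b := by
  constructor
  · exact fun h => ⟨h.mono inf_le_left, h.mono inf_le_right⟩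
  · rintro ⟨ha, hb⟩ h
    rcases J.2.mem_or_mem h with h1 | h1
    · exact ha h1
    · exact hb h1

theorem at_compl {J : Pt B} {a : B} : At J aᶜ ↔ ¬ At J a := by
  constructor
  · intro h ha
    have := at_inf.2 ⟨h, ha⟩
    rw [compl_inf_self] at this
    exact not_at_bot J this
  · intro h
    have h1 : At J (a ⊔ aᶜ) := by
      rw [sup_compl_eq_top]
      exact at_top J
    exact (at_sup.1 h1).resolve_left h

theorem exists_pt {b : B} (hb : b ≠ ⊥) : ∃ J : Pt B, At J b := by
  obtain ⟨J, hJ, -, hd⟩ := DistribLattice.prime_ideal_of_disjoint_filter_ideal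
    (F := Order.PFilter.principal b) (I := (⊥ : Order.Ideal B)) (by
      rw [Set.disjoint_left]
      intro x hx hx'
      have h1 : b ≤ x := hx
      have h2 : x ≤ ⊥ := hx'
      exact hb (le_bot_iff.1 (h1.trans h2)))
  refine ⟨⟨J, hJ⟩, fun h => ?_⟩
  exact Set.disjoint_left.1 hd (show b ∈ (Order.PFilter.principal b : Set B) from le_refl b) h

theorem le_of_pt {a b : B} (h : ∀ J : Pt B, At J a → At J b) : a ≤ b := by
  by_contra hab
  have h1 : a ⊓ bᶜ ≠ ⊥ := by
    intro h2
    apply hab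
    rw [← sdiff_eq, sdiff_eq_bot_iff] at h2
    exact h2
  obtain ⟨J, hJ⟩ := exists_pt h1
  rw [at_inf, at_compl] at hJ
  exact hJ.2 (h J hJ.1)

theorem disjoint_of_pt {a b : B} (h : ∀ J : Pt B, At J a → ¬ At J b) : Disjoint a b := by
  rw [disjoint_iff]
  by_contra h1
  obtain ⟨J, hJ⟩ := exists_pt h1
  rw [at_inf] at hJ
  exact h J hJ.1 hJ.2

theorem at_finset_sup {ι : Type*} {J : Pt B} {E : Finset ι} {a : ι → B} :
    At J (E.sup a) ↔ ∃ i ∈ E, At J (a i) := by
  classical
  induction E using Finset.induction_on with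
  | empty => simp [not_at_bot]
  | insert i s _ ih =>
    rw [Finset.sup_insert, at_sup, ih]
    simp

theorem at_finset_inf {ι : Type*} {J : Pt B} {E : Finset ι} {a : ι → B} :
    At J (E.inf a) ↔ ∀ i ∈ E, At J (a i) := by
  classical
  induction E using Finset.induction_on with
  | empty => simp [at_top]
  | insert i s _ ih =>
    rw [Finset.inf_insert, at_inf, ih]
    simp

/-- Hall's theorem for a concentrator. -/
theorem hall {n l k : ℕ} {R : Fin n → (Fin 3 → Fin l)}
    (hR : ∀ E : Finset (Fin n), E.card ≤ k →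
      E.card ≤ (E.biUnion (fun i => Finset.univ.image (R i))).card)
    (E : Finset (Fin n)) (hE : E.card ≤ k) (hn : n ≠ 0 → 0 < l) :
    ∃ f : Fin n → Fin l, Set.InjOn f E ∧ ∀ i ∈ E, ∃ t, R i t = f i := by
  classical
  obtain ⟨f, hf, hf'⟩ := (Finset.all_card_le_biUnion_card_iff_exists_injective
    (fun i : {i // i ∈ E} => Finset.univ.image (R i.1))).1 (by
      intro s
      have h1 := hR (s.map (Function.Embedding.subtype _)) (by
        refine le_trans (Finset.card_le_card ?_) hE
        intro x hx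
        rw [Finset.mem_map] at hx
        obtain ⟨y, -, rfl⟩ := hx
        exact y.2)
      rw [Finset.card_map] at h1
      refine h1.trans (Finset.card_le_card ?_)
      intro x hx
      rw [Finset.mem_biUnion] at hx ⊢
      obtain ⟨i, hi, hx⟩ := hx
      rw [Finset.mem_map] at hi
      obtain ⟨y, hy, rfl⟩ := hi
      exact ⟨y, hy, hx⟩)
  rcases Nat.eq_zero_or_pos n with rfl | hn0
  · exact ⟨fun i => i.elim0, fun i => i.elim0, fun i => i.elim0⟩
  · have hl := hn (by omega)
    refine ⟨fun i => if h : i ∈ E then f ⟨i, h⟩ else ⟨0, hl⟩, ?_, ?_⟩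
    · intro i hi j hj hij
      simp only [Finset.mem_coe] at hi hj
      simp only [hi, hj, dif_pos] at hij
      have := hf hij
      exact congrArg Subtype.val this
    · intro i hi
      have h2 := hf' ⟨i, hi⟩
      rw [Finset.mem_image] at h2
      obtain ⟨t, -, ht⟩ := h2
      exact ⟨t, by simp only [hi, dif_pos]; exact ht⟩

/-- The theorem of Kalton and Roberts: elements of large uniformly exhaustive submeasure have
positive intersection number. -/
theorem kalton_roberts (m : B → ℝ) (hmono : ∀ a b, a ≤ b → m a ≤ m b)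
    (hsub : ∀ a b, m (a ⊔ b) ≤ m a + m b) (h0 : m ⊥ = 0)
    (hUE : ∀ ε > 0, ∃ r : ℕ, ∀ b : Fin (r + 1) → B, (∀ i j, i ≠ j → Disjoint (b i) (b j)) →
      ∃ i, m (b i) < ε) (htop : (⊤ : B) ≠ ⊥) (γ : ℝ) (hγ : 0 < γ) :
    ∃ δ : ℝ, 0 < δ ∧ δ ≤ 1 ∧ ∀ (n : ℕ) (a : Fin n → B), (∀ i, γ ≤ m (a i)) →
      ∃ E : Finset (Fin n), δ * n ≤ E.card ∧ E.inf a ≠ ⊥ := by
  classical
  obtain ⟨r, hr⟩ := hUE (γ / 3) (by positivity)
  obtain ⟨ρ, hρ⟩ : ∃ ρ : ℕ, ρ = r + 1 := ⟨_, rfl⟩
  have hρ1 : 1 ≤ ρ := by omega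
  have hρR : (1 : ℝ) ≤ ρ := by exact_mod_cast hρ1
  refine ⟨1 / (432 * (ρ : ℝ) ^ 2), by positivity, ?_, ?_⟩
  · rw [div_le_one (by positivity)]
    nlinarith
  intro n a ha
  by_contra hcon
  push Not at hcon
  have hsmall : ∀ E : Finset (Fin n), E.inf a ≠ ⊥ → (E.card : ℝ) < 1 / (432 * (ρ : ℝ) ^ 2) * n := by
    intro E hE
    by_contra h1
    exact hE (hcon E (not_lt.1 h1))
  have hn0 : 0 < n := by
    rcases Nat.eq_zero_or_pos n with rfl | h
    · exfalso
      have := hsmall ∅ (by simpa using htop)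
      simp at this
    · exact h
  have hn1 : 432 * ρ ^ 2 < n := by
    have h1 := hsmall {⟨0, hn0⟩} (by
      rw [Finset.inf_singleton]
      intro h1
      have h2 := ha ⟨0, hn0⟩
      rw [h1, h0] at h2
      linarith)
    rw [Finset.card_singleton] at h1
    have h2 : (0 : ℝ) < 432 * (ρ : ℝ) ^ 2 := by positivity
    rw [div_mul_eq_mul_div, one_mul, Nat.cast_one, lt_div_iff₀ h2, one_mul] at h1
    exact_mod_cast h1
  set k : ℕ := n / (432 * ρ ^ 2) with hk
  set l : ℕ := n / (2 * ρ) with hl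
  have hρ2 : ρ ≤ ρ ^ 2 := by nlinarith
  have hkn : k * (432 * ρ ^ 2) ≤ n := Nat.div_mul_le_self _ _
  have hl1 : n ≤ 4 * ρ * l := by
    have h1 : n < 2 * ρ * (l + 1) := Nat.lt_mul_div_succ n (by omega)
    nlinarith
  have hl2 : 2 * ρ * l ≤ n := Nat.mul_div_le n _
  have hlpos : 0 < l := by
    rcases Nat.eq_zero_or_pos l with h | h
    · rw [h] at hl1
      omega
    · exact h
  have hkl : k ≤ l := by
    have h1 : k * (432 * ρ ^ 2) ≤ 4 * ρ * l := hkn.trans hl1
    have h2 : k * (4 * ρ) ≤ l * (4 * ρ) := by nlinarith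
    exact Nat.le_of_mul_le_mul_right h2 (by omega)
  have h27 : 27 * (n * k) ≤ l ^ 2 := by
    have h1 : n * (k * (432 * ρ ^ 2)) ≤ (4 * ρ * l) * (4 * ρ * l) :=
      Nat.mul_le_mul hl1 (hkn.trans hl1)
    have h2 : (27 * (n * k)) * (16 * ρ ^ 2) ≤ l ^ 2 * (16 * ρ ^ 2) := by nlinarith
    exact Nat.le_of_mul_le_mul_right h2 (by positivity)
  have hsmall' : ∀ E : Finset (Fin n), E.inf a ≠ ⊥ → E.card ≤ k := by
    intro E hE
    have h1 := hsmall E hE
    have h2 : (0 : ℝ) < 432 * (ρ : ℝ) ^ 2 := by positivity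
    rw [div_mul_eq_mul_div, one_mul, lt_div_iff₀ h2] at h1
    rw [hk, Nat.le_div_iff_mul_le (by positivity)]
    have h3 : E.card * (432 * ρ ^ 2) < n := by exact_mod_cast h1
    omega
  obtain ⟨R, hR⟩ := conc hlpos hkl h27
  choose f hf hf' using fun (E : Finset (Fin n)) (hE : E.card ≤ k) => hall hR E hE (fun _ => hlpos)
  set c : Finset (Fin n) → B := fun E => E.inf a ⊓ Eᶜ.inf (fun i => (a i)ᶜ) with hc
  set e : Pt B → Finset (Fin n) := fun J => Finset.univ.filter (fun i => At J (a i)) with he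
  have hec : ∀ (J : Pt B) (E : Finset (Fin n)), At J (c E) ↔ E = e J := by
    intro J E
    rw [hc]
    simp only
    rw [at_inf, at_finset_inf, at_finset_inf]
    constructor
    · rintro ⟨h1, h2⟩
      ext i
      rw [he]
      simp only [Finset.mem_filter, Finset.mem_univ, true_and]
      constructor
      · exact h1 i
      · intro h3
        by_contra h4
        exact at_compl.1 (h2 i (Finset.mem_compl.2 h4)) h3
    · rintro rfl
      refine ⟨fun i hi => ?_, fun i hi => ?_⟩
      · rw [he] at hi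
        simpa using hi
      · rw [at_compl]
        rw [he, Finset.mem_compl] at hi
        simpa using hi
  have hek : ∀ J : Pt B, (e J).card ≤ k := by
    intro J
    apply hsmall'
    intro h1
    apply not_at_bot J
    rw [← h1, at_finset_inf]
    intro i hi
    rw [he] at hi
    simpa using hi
  set b : Fin n → Fin l → B := fun i j => (Finset.univ.filter (fun E : Finset (Fin n) =>
    ∃ h : E.card ≤ k, i ∈ E ∧ f E h i = j)).sup c with hb
  have hbat : ∀ J i j, At J (b i j) ↔ At J (a i) ∧ f (e J) (hek J) i = j := by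
    intro J i j
    rw [hb]
    simp only
    rw [at_finset_sup]
    constructor
    · rintro ⟨E, hE, hE'⟩
      rw [hec] at hE'
      subst hE'
      simp only [Finset.mem_filter, Finset.mem_univ, true_and] at hE
      obtain ⟨h, h1, h2⟩ := hE
      refine ⟨?_, h2⟩
      rw [he] at h1
      simpa using h1
    · rintro ⟨h1, h2⟩
      refine ⟨e J, ?_, (hec J _).2 rfl⟩
      simp only [Finset.mem_filter, Finset.mem_univ, true_and]
      refine ⟨hek J, ?_, h2⟩
      rw [he]
      simpa using h1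
  have hcov : ∀ i, a i ≤ (b i (R i 0) ⊔ b i (R i 1)) ⊔ b i (R i 2) := by
    intro i
    apply le_of_pt
    intro J hJ
    rw [at_sup, at_sup, hbat, hbat, hbat]
    have hi : i ∈ e J := by
      rw [he]
      simpa using hJ
    obtain ⟨t, ht⟩ := hf' (e J) (hek J) i hi
    fin_cases t
    · exact Or.inl (Or.inl ⟨hJ, ht.symm⟩)
    · exact Or.inl (Or.inr ⟨hJ, ht.symm⟩)
    · exact Or.inr ⟨hJ, ht.symm⟩
  have hlarge : ∀ i, ∃ j, γ / 3 ≤ m (b i j) := by
    intro i
    by_contra h1
    push Not at h1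
    have h2 := ha i
    have h3 := hmono _ _ (hcov i)
    have h4 := hsub (b i (R i 0) ⊔ b i (R i 1)) (b i (R i 2))
    have h5 := hsub (b i (R i 0)) (b i (R i 1))
    have h6 := h1 (R i 0)
    have h7 := h1 (R i 1)
    have h8 := h1 (R i 2)
    linarith
  choose g hg using hlarge
  have hrl : Fintype.card (Fin l) * r < Fintype.card (Fin n) := by
    rw [Fintype.card_fin, Fintype.card_fin]
    nlinarith
  obtain ⟨j, hj⟩ := Fintype.exists_lt_card_fiber_of_mul_lt_card g hrl
  obtain ⟨S, hS, hScard⟩ := Finset.exists_subset_card_eq (s := Finset.univ.filter (fun x => g x = j))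
    (n := r + 1) hj
  set φ : Fin (r + 1) ≃ S := (Finset.equivFinOfCardEq hScard).symm with hφ
  obtain ⟨t, ht⟩ := hr (fun t => b (φ t).1 j) (by
    intro t t' htt'
    apply disjoint_of_pt
    intro J hJ hJ'
    rw [hbat] at hJ hJ'
    have h1 : (φ t).1 ∈ e J := by
      rw [he]
      simpa using hJ.1
    have h2 : (φ t').1 ∈ e J := by
      rw [he]
      simpa using hJ'.1
    have h3 := hf (e J) (hek J) h1 h2 (hJ.2.trans hJ'.2.symm)
    exact htt' (φ.injective (Subtype.ext h3)))
  have h1 := hS (φ t).2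
  simp only [Finset.mem_filter, Finset.mem_univ, true_and] at h1
  have h2 := hg (φ t).1
  rw [h1] at h2
  linarith

end Q204.KR
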