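import Pool.Agent.Q204.KR.Inter

set_option autoImplicit false

/-!
# Kelley's theorem: positive intersection number and finitely additive measures
-/

namespace Q204.KR

universe u

variable {B : Type u} [BooleanAlgebra B]

open Classical in
/-- The indicator of a point. -/
noncomputable def chi (J : Pt B) (b : B) : ℝ := if At J b then 1 else 0

theorem chi_le_one (J : Pt B) (b : B) : chi J b ≤ 1 := by
  unfold chi
  split_ifs <;> norm_num

theorem chi_nonneg (J : Pt B) (b : B) : 0 ≤ chi J b := by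
  unfold chi
  split_ifs <;> norm_num

theorem chi_top (J : Pt B) : chi J ⊤ = 1 := if_pos (at_top J)

theorem chi_sup {J : Pt B} {a b : B} (h : Disjoint a b) : chi J (a ⊔ b) = chi J a + chi J b := by
  unfold chi
  by_cases ha : At J a
  · have hb : ¬ At J b := by
      intro hb
      have := at_inf.2 ⟨ha, hb⟩
      rw [disjoint_iff.1 h] at this
      exact not_at_bot J this
    rw [if_pos (at_sup.2 (Or.inl ha)), if_pos ha, if_neg hb, add_zero]
  · by_cases hb : At J b
    · rw [if_pos (at_sup.2 (Or.inr hb)), if_neg ha, if_pos hb, zero_add]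
    · rw [if_neg (by rw [at_sup]; tauto), if_neg ha, if_neg hb, add_zero]

/-- Kelley's condition: every finite sequence from `C` has a subfamily of proportion `δ` with
nonzero meet. -/
def Kel (C : Set B) (δ : ℝ) : Prop := ∀ (n : ℕ) (a : Fin n → B), (∀ i, a i ∈ C) →
  ∃ E : Finset (Fin n), δ * n ≤ E.card ∧ E.inf a ≠ ⊥

theorem Kel.fintype {C : Set B} {δ : ℝ} (h : Kel C δ) {ι : Type*} [Fintype ι] (a : ι → B)
    (ha : ∀ i, a i ∈ C) : ∃ E : Finset ι, δ * Fintype.card ι ≤ E.card ∧ E.inf a ≠ ⊥ := by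
  obtain ⟨E, hE, hE'⟩ := h (Fintype.card ι) (fun i => a ((Fintype.equivFin ι).symm i))
    (fun i => ha _)
  refine ⟨E.map (Fintype.equivFin ι).symm.toEmbedding, by rw [Finset.card_map]; exact hE, ?_⟩
  rw [Finset.inf_map]
  exact hE'

/-- Weighted form of Kelley's condition. -/
theorem Kel.weight {C : Set B} {δ : ℝ} (h : Kel C δ) (hδ : 0 < δ) (hδ1 : δ ≤ 1) (t : B →₀ ℝ)
    (ht : ∀ a, 0 ≤ t a) (htC : ∀ a, t a ≠ 0 → a ∈ C) (η : ℝ) (hη : 0 < η) :
    ∃ J : Pt B, -η ≤ ∑ a ∈ t.support, t a * (chi J a - δ) := by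
  classical
  obtain ⟨N, hN⟩ := exists_nat_gt ((t.support.card : ℝ) / η)
  have hN0 : (0 : ℝ) < N := lt_of_le_of_lt (by positivity) hN
  rw [div_lt_iff₀ hη] at hN
  set T : B → ℕ := fun a => ⌊N * t a⌋₊ with hT
  have hT1 : ∀ a, (T a : ℝ) ≤ N * t a := fun a => Nat.floor_le (mul_nonneg hN0.le (ht a))
  have hT2 : ∀ a, N * t a ≤ (T a : ℝ) + 1 := fun a => (Nat.lt_floor_add_one _).le
  obtain ⟨E, hE, hE'⟩ := h.fintype (ι := Σ a : t.support, Fin (T a.1)) (fun x => x.1.1)
    (fun x => htC _ (Finsupp.mem_support_iff.1 x.1.2))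
  obtain ⟨J, hJ⟩ := exists_pt hE'
  rw [at_finset_inf] at hJ
  refine ⟨J, ?_⟩
  have h1 : (E.card : ℝ) ≤ ∑ a ∈ t.support, (T a : ℝ) * chi J a := by
    have h2 : E.card ≤ ∑ a : t.support, if At J a.1 then T a.1 else 0 := by
      have h3 : E ⊆ (Finset.univ : Finset t.support).sigma
          (fun a => if At J a.1 then (Finset.univ : Finset (Fin (T a.1))) else ∅) := by
        intro x hx
        rw [Finset.mem_sigma]
        refine ⟨Finset.mem_univ _, ?_⟩
        rw [if_pos (hJ x hx)]
        exact Finset.mem_univ _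
      refine (Finset.card_le_card h3).trans ?_
      rw [Finset.card_sigma]
      apply Finset.sum_le_sum
      intro a _
      split_ifs
      · simp
      · simp
    have h3 : ((∑ a : t.support, if At J a.1 then T a.1 else 0 : ℕ) : ℝ) =
        ∑ a ∈ t.support, (T a : ℝ) * chi J a := by
      rw [Finset.sum_coe_sort t.support (fun a => if At J a then T a else 0)]
      push_cast
      apply Finset.sum_congr rfl
      intro a _
      unfold chi
      split_ifs <;> simp
    rw [← h3]
    exact_mod_cast h2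
  have hcard : ((Fintype.card (Σ a : t.support, Fin (T a.1)) : ℕ) : ℝ) =
      ∑ a ∈ t.support, (T a : ℝ) := by
    rw [Fintype.card_sigma]
    simp only [Fintype.card_fin]
    rw [Finset.sum_coe_sort t.support T]
    push_cast
    rfl
  rw [hcard] at hE
  have h4 : 0 ≤ ∑ a ∈ t.support, (T a : ℝ) * (chi J a - δ) := by
    have : ∑ a ∈ t.support, (T a : ℝ) * (chi J a - δ) =
        ∑ a ∈ t.support, (T a : ℝ) * chi J a - δ * ∑ a ∈ t.support, (T a : ℝ) := by
      rw [Finset.mul_sum, ← Finset.sum_sub_distrib]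
      apply Finset.sum_congr rfl
      intro a _
      ring
    rw [this]
    linarith
  have h5 : ∀ a, (T a : ℝ) * (chi J a - δ) ≤ N * (t a * (chi J a - δ)) + 1 := by
    intro a
    have e1 := hT1 a
    have e2 := hT2 a
    have e3 := chi_le_one J a
    have e4 := chi_nonneg J a
    have e5 : chi J a - δ ≤ 1 := by linarith
    have e6 : -1 ≤ chi J a - δ := by linarith
    have e7 : ((T a : ℝ) - N * t a) * (chi J a - δ) ≤ 1 := by
      have e8 : |((T a : ℝ) - N * t a) * (chi J a - δ)| ≤ 1 * 1 := by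
        rw [abs_mul]
        apply mul_le_mul _ _ (abs_nonneg _) zero_le_one
        · rw [abs_le]
          constructor <;> linarith
        · rw [abs_le]
          exact ⟨e6, e5⟩
      have := le_abs_self (((T a : ℝ) - N * t a) * (chi J a - δ))
      linarith
    nlinarith
  have h6 : ∑ a ∈ t.support, (T a : ℝ) * (chi J a - δ) ≤
      N * ∑ a ∈ t.support, (t a * (chi J a - δ)) + t.support.card := by
    rw [Finset.mul_sum]
    refine (Finset.sum_le_sum (fun a _ => h5 a)).trans ?_
    rw [Finset.sum_add_distrib]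
    simp
  have h7 : -((N : ℝ) * η) ≤ N * ∑ a ∈ t.support, (t a * (chi J a - δ)) := by linarith
  have h8 : (N : ℝ) * (-η) ≤ N * ∑ a ∈ t.support, (t a * (chi J a - δ)) := by linarith
  exact le_of_mul_le_mul_left h8 hN0

/-- Kelley's theorem. -/
theorem kelley {C : Set B} {δ : ℝ} (h : Kel C δ) (hδ : 0 < δ) (hδ1 : δ ≤ 1) :
    ∃ ν : B → ℝ, (∀ a, 0 ≤ ν a) ∧ ν ⊤ = 1 ∧ (∀ a b, Disjoint a b → ν (a ⊔ b) = ν a + ν b) ∧
      ∀ a ∈ C, δ ≤ ν a := by
  classical
  set ev : Pt B → (B →₀ ℝ) →ₗ[ℝ] ℝ := fun J => Finsupp.linearCombination ℝ (chi J) with hev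
  set ev' : Pt B → (B →₀ ℝ) →ₗ[ℝ] ℝ := fun J =>
    Finsupp.linearCombination ℝ (fun a => chi J a - δ) with hev'
  set s : PointedCone ℝ (B →₀ ℝ) :=
    { carrier := {f | ∃ t : B →₀ ℝ, (∀ a, 0 ≤ t a) ∧ (∀ a, t a ≠ 0 → a ∈ C) ∧
        ∀ J, ev' J t ≤ ev J f}
      add_mem' := by
        rintro f g ⟨t, ht, htC, htJ⟩ ⟨t', ht', htC', htJ'⟩
        refine ⟨t + t', fun a => add_nonneg (ht a) (ht' a), fun a ha => ?_, fun J => ?_⟩
        · by_contra hC
          have h1 : t a = 0 := by
            by_contra h2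
            exact hC (htC a h2)
          have h3 : t' a = 0 := by
            by_contra h2
            exact hC (htC' a h2)
          apply ha
          rw [Finsupp.add_apply, h1, h3, add_zero]
        · rw [map_add, map_add]
          exact add_le_add (htJ J) (htJ' J)
      zero_mem' := ⟨0, fun _ => le_rfl, fun a ha => absurd rfl ha, fun J => by simp⟩
      smul_mem' := by
        rintro ⟨c, hc⟩ f ⟨t, ht, htC, htJ⟩
        refine ⟨c • t, fun a => mul_nonneg hc (ht a), fun a ha => ?_, fun J => ?_⟩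
        · apply htC
          intro h1
          apply ha
          rw [Finsupp.smul_apply, h1, smul_zero]
        · rw [map_smul]
          show c • ev' J t ≤ ev J (c • f)
          rw [map_smul]
          exact mul_le_mul_of_nonneg_left (htJ J) hc } with hs
  have hmem : ∀ f : B →₀ ℝ, f ∈ s ↔ ∃ t : B →₀ ℝ, (∀ a, 0 ≤ t a) ∧ (∀ a, t a ≠ 0 → a ∈ C) ∧
        ∀ J, ev' J t ≤ ev J f := fun f => Iff.rfl
  have hpos : ∀ f : B →₀ ℝ, (∀ J, 0 ≤ ev J f) → f ∈ s := by
    intro f hf
    rw [hmem]
    exact ⟨0, fun _ => le_rfl, fun a ha => absurd rfl ha, fun J => by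
      rw [map_zero]
      exact hf J⟩
  have hsingle : ∀ J a (r : ℝ), ev J (Finsupp.single a r) = r * chi J a := by
    intro J a r
    rw [hev]
    simp
  set e₀ : B →₀ ℝ := Finsupp.single ⊤ 1 with he₀
  have he₀0 : e₀ ≠ 0 := by
    rw [he₀]
    simp
  have hz : ∀ c : ℝ, c • e₀ = 0 → (RingHom.id ℝ) c • (1 : ℝ) = 0 := fun c hc => by
    rcases smul_eq_zero.1 hc with h | h
    · rw [h]; simp
    · exact absurd h he₀0
  set f₀ : (B →₀ ℝ) →ₗ.[ℝ] ℝ := LinearPMap.mkSpanSingleton' e₀ (1 : ℝ) hz with hf₀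
  have hf₀c : ∀ (c : ℝ) (hc : c • e₀ ∈ f₀.domain), f₀ ⟨c • e₀, hc⟩ = c := by
    intro c hc
    have h1 := LinearPMap.mkSpanSingleton'_apply e₀ (1 : ℝ) hz c hc
    rw [RingHom.id_apply, smul_eq_mul, mul_one] at h1
    exact h1
  have hdom : ∀ x : f₀.domain, ∃ c : ℝ, (x : B →₀ ℝ) = c • e₀ := by
    intro x
    obtain ⟨c, hc⟩ := Submodule.mem_span_singleton.1 x.2
    exact ⟨c, hc.symm⟩
  have hdom' : ∀ c : ℝ, c • e₀ ∈ f₀.domain := fun c => Submodule.mem_span_singleton.2 ⟨c, rfl⟩
  obtain ⟨g, hg1, hg2⟩ := riesz_extension s f₀ (by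
    rintro ⟨x, hx⟩ hxs
    obtain ⟨c, hc⟩ := hdom ⟨x, hx⟩
    simp only at hc hxs
    subst hc
    rw [hf₀c]
    obtain ⟨t, ht, htC, htJ⟩ := (hmem _).1 hxs
    by_contra hneg
    push Not at hneg
    obtain ⟨J, hJ⟩ := h.weight hδ hδ1 t ht htC (-c / 2) (by linarith)
    have h1 := htJ J
    rw [map_smul, he₀, hsingle, chi_top] at h1
    have h2 : ev' J t = ∑ a ∈ t.support, t a * (chi J a - δ) := by
      rw [hev']
      simp only
      rw [Finsupp.linearCombination_apply, Finsupp.sum]
      rfl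
    rw [h2] at h1
    simp only [smul_eq_mul, mul_one] at h1
    linarith) (by
    intro y
    refine ⟨⟨(∑ a ∈ y.support, |y a|) • e₀, hdom' _⟩, ?_⟩
    apply hpos
    intro J
    show 0 ≤ ev J ((∑ a ∈ y.support, |y a|) • e₀ + y)
    rw [map_add, map_smul, he₀, hsingle, chi_top]
    have h2 : ev J y = ∑ a ∈ y.support, y a * chi J a := by
      rw [hev]
      simp only
      rw [Finsupp.linearCombination_apply, Finsupp.sum]
      rfl
    rw [h2]
    simp only [smul_eq_mul, mul_one]
    rw [← Finset.sum_add_distrib]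
    apply Finset.sum_nonneg
    intro a _
    have h3 := neg_abs_le (y a)
    have h4 := chi_nonneg J a
    have h5 := chi_le_one J a
    have h6 := abs_nonneg (y a)
    nlinarith)
  refine ⟨fun b => g (Finsupp.single b 1), ?_, ?_, ?_, ?_⟩
  · intro a
    apply hg2
    apply hpos
    intro J
    rw [hsingle, one_mul]
    exact chi_nonneg J a
  · have h1 := hg1 ⟨(1 : ℝ) • e₀, hdom' 1⟩
    rw [hf₀c] at h1
    simp only [one_smul] at h1
    exact h1
  · intro a b hab
    have h1 : 0 ≤ g (Finsupp.single (a ⊔ b) 1 - Finsupp.single a 1 - Finsupp.single b 1) := by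
      apply hg2
      apply hpos
      intro J
      rw [map_sub, map_sub, hsingle, hsingle, hsingle, chi_sup hab]
      linarith
    have h2 : 0 ≤ g (Finsupp.single a 1 + Finsupp.single b 1 - Finsupp.single (a ⊔ b) 1) := by
      apply hg2
      apply hpos
      intro J
      rw [map_sub, map_add, hsingle, hsingle, hsingle, chi_sup hab]
      linarith
    rw [map_sub, map_sub] at h1
    rw [map_sub, map_add] at h2
    show g _ = g _ + g _
    linarith
  · intro a ha
    have h1 : 0 ≤ g (Finsupp.single a 1 - δ • e₀) := by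
      apply hg2
      rw [hmem]
      refine ⟨Finsupp.single a 1, ?_, ?_, ?_⟩
      · intro b
        rw [Finsupp.single_apply]
        split_ifs <;> norm_num
      · intro b hb
        rw [Finsupp.single_apply] at hb
        split_ifs at hb with h2
        · rw [← h2]
          exact ha
        · exact absurd rfl hb
      · intro J
        rw [map_sub, map_smul, he₀, hsingle, hsingle, chi_top, hev']
        simp
    have h2 := hg1 ⟨(1 : ℝ) • e₀, hdom' 1⟩
    rw [hf₀c] at h2
    simp only [one_smul] at h2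
    rw [map_sub, map_smul, h2] at h1
    simp only [smul_eq_mul, mul_one] at h1
    show δ ≤ g _
    linarith

end Q204.KR
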