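import Pool.Agent.Q204.KR.Kelley
import Pool.Agent.Q204.KR.Count

set_option autoImplicit false

/-!
# Existence of a measure
-/

namespace Q204.KR

universe u

open Filter Topology ENNReal

variable {B : Type u} [CompleteBooleanAlgebra B]

/-- A uniformly exhaustive continuous outer measure gives a strictly positive finitely additive
measure. -/
theorem exists_fin0 {m : B → ℝ} (hm : IsContOuter m) (htop : (⊤ : B) ≠ ⊥)
    (hUE : ∀ ε > 0, ∃ r : ℕ, ∀ b : Fin (r + 1) → B, (∀ i j, i ≠ j → Disjoint (b i) (b j)) →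
      ∃ i, m (b i) < ε) : ∃ N : B → ℝ≥0∞, Fin0 N := by
  obtain ⟨h0, hpos, hmono, hsub, -⟩ := hm
  choose δ hδ hδ1 hK using fun k : ℕ =>
    kalton_roberts m hmono hsub h0 hUE htop (1 / ((k : ℝ) + 1)) (by positivity)
  choose ν hν1 hν2 hν3 hν4 using fun k : ℕ =>
    kelley (C := {a : B | 1 / ((k : ℝ) + 1) ≤ m a}) (hK k) (hδ k) (hδ1 k)
  refine ⟨fun a => ∑' k : ℕ, ENNReal.ofReal ((1 / 2 : ℝ) ^ k * ν k a), ?_, ?_, ?_⟩
  · intro a b hab
    rw [← ENNReal.tsum_add]
    congr 1
    funext k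
    rw [hν3 k a b hab, mul_add, ENNReal.ofReal_add (mul_nonneg (by positivity) (hν1 k a))
      (mul_nonneg (by positivity) (hν1 k b))]
  · simp only [hν2, mul_one]
    have h1 : HasSum (fun k : ℕ => (1 / 2 : ℝ) ^ k) 2 := hasSum_geometric_two
    rw [← ENNReal.ofReal_tsum_of_nonneg (fun k => by positivity) h1.summable]
    exact ENNReal.ofReal_ne_top
  · intro a ha
    obtain ⟨k, hk⟩ := exists_nat_one_div_lt (hpos a ha)
    have h1 := hν4 k a hk.le
    have h2 : 0 < (1 / 2 : ℝ) ^ k * ν k a := mul_pos (by positivity) (lt_of_lt_of_le (hδ k) h1)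
    intro h3
    rw [ENNReal.tsum_eq_zero] at h3
    have h4 := h3 k
    rw [ENNReal.ofReal_eq_zero] at h4
    linarith

theorem main {m : B → ℝ} (hm : IsContOuter m)
    (H : ∀ C : BooleanSubalgebra B, CountGen C → ∃ μ : C → ℝ, IsMeasure μ) :
    ∃ μ : B → ℝ, IsMeasure μ := by
  by_cases htop : (⊤ : B) = ⊥
  · have hall : ∀ a : B, a = ⊥ := fun a => le_bot_iff.1 (htop ▸ le_top)
    refine ⟨fun _ => 0, fun _ => le_rfl, fun a ha => absurd (hall a) ha, fun _ _ _ _ => ?_⟩
    exact hasSum_zero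
  · obtain ⟨N, hN⟩ := exists_fin0 hm htop (unif_exh hm H)
    have hfin : ∀ a, cap N a ≠ ∞ := fun a => ne_top_of_le_ne_top (hN.ne_top a) (cap_le hN a)
    refine ⟨fun a => (cap N a).toReal, fun a => ENNReal.toReal_nonneg, fun a ha => ?_, ?_⟩
    · exact ENNReal.toReal_pos (cap_pos hN hm ha) (hfin a)
    · intro a s ha hs
      have hp : Part s a := ⟨ha, hs.iSup_eq⟩
      have h1 := cap_add hN hp
      have h2 : ∑' n, cap N (a n) ≠ ∞ := by
        rw [← h1]
        exact hfin s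
      have h3 := ENNReal.hasSum_toReal h2
      rw [← ENNReal.tsum_toReal_eq (fun n => hfin (a n)), ← h1] at h3
      exact h3

end Q204.KR
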