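import Pool.Agent.Q204.KR.Defs

set_option autoImplicit false

/-!
# Basic properties of measures; absolute continuity; uniform exhaustivity
-/

namespace Q204.KR

universe u

open Filter Topology

section
variable {A : Type u} [BooleanAlgebra A] {μ : A → ℝ}

theorem IsMeasure.bot (h : IsMeasure μ) : μ ⊥ = 0 := by
  have h1 := h.2.2 (fun _ => ⊥) ⊥ (fun i j _ => disjoint_bot_left) (by
    constructor
    · rintro x ⟨n, rfl⟩
      exact le_rfl
    · intro x _
      exact bot_le)
  have h2 := h1.summable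
  rw [summable_const_iff] at h2
  exact h2

theorem IsMeasure.sup (h : IsMeasure μ) {a b : A} (hab : Disjoint a b) :
    μ (a ⊔ b) = μ a + μ b := by
  set f : ℕ → A := fun n => if n = 0 then a else if n = 1 then b else ⊥ with hf
  have h1 := h.2.2 f (a ⊔ b) (by
    intro i j hij
    rw [hf]
    simp only
    split_ifs <;> simp_all [hab.symm]) (by
    constructor
    · rintro x ⟨n, rfl⟩
      rw [hf]
      simp only
      split_ifs
      · exact le_sup_left
      · exact le_sup_right
      · exact bot_le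
    · intro x hx
      exact sup_le (hx ⟨0, rfl⟩) (hx ⟨1, rfl⟩))
  have h2 : HasSum (fun n => μ (f n)) (∑ n ∈ Finset.range 2, μ (f n)) := by
    apply hasSum_sum_of_ne_finset_zero
    intro n hn
    rw [Finset.mem_range] at hn
    have : f n = ⊥ := by
      rw [hf]
      simp only
      rw [if_neg (by omega), if_neg (by omega)]
    rw [this]
    exact h.bot
  have h3 := h1.unique h2
  rw [h3, Finset.sum_range_succ, Finset.sum_range_one]
  rfl

theorem IsMeasure.mono (h : IsMeasure μ) {a b : A} (hab : a ≤ b) : μ a ≤ μ b := by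
  have h1 := h.sup (disjoint_sdiff_self_right (x := a) (y := b))
  rw [sup_sdiff_cancel_right hab] at h1
  have h2 := h.1 (b \ a)
  linarith

theorem IsMeasure.finset_sup (h : IsMeasure μ) {ι : Type*} (E : Finset ι) (a : ι → A)
    (ha : ∀ i ∈ E, ∀ j ∈ E, i ≠ j → Disjoint (a i) (a j)) : μ (E.sup a) = ∑ i ∈ E, μ (a i) := by
  classical
  induction E using Finset.induction_on with
  | empty => simpa using h.bot
  | insert i s hi ih =>
    rw [Finset.sup_insert, Finset.sum_insert hi, h.sup, ih]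
    · intro j hj k hk
      exact ha j (Finset.mem_insert_of_mem hj) k (Finset.mem_insert_of_mem hk)
    · rw [Finset.disjoint_sup_right]
      intro j hj
      exact ha i (Finset.mem_insert_self _ _) j (Finset.mem_insert_of_mem hj)
        (fun h => hi (h ▸ hj))

theorem IsMeasure.le_of_hasSum (h : IsMeasure μ) {a : ℕ → A} {s : A} {b : ℕ → ℝ} {T : ℝ}
    (hs : IsLUB (Set.range a) s) (hb : ∀ n, μ (a n) ≤ b n) (hT : HasSum b T) : μ s ≤ T := by
  have h1 := h.2.2 (disjointed a) s (fun i j hij => disjoint_disjointed a hij) (by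
    have h2 : upperBounds (Set.range (disjointed a)) = upperBounds (Set.range a) := by
      rw [← upperBounds_range_partialSups (disjointed a), partialSups_disjointed,
        upperBounds_range_partialSups]
    unfold IsLUB
    rw [h2]
    exact hs)
  exact hasSum_le (fun n => (h.mono (disjointed_le a n)).trans (hb n)) h1 hT

/-- Absolute continuity of a continuous submeasure with respect to a measure. -/
theorem ac (hσ : ∀ a : ℕ → A, ∃ s, IsLUB (Set.range a) s) (h : IsMeasure μ) {m : A → ℝ}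
    (hmono : ∀ a b, a ≤ b → m a ≤ m b)
    (hcont : ∀ a : ℕ → A, Antitone a → IsGLB (Set.range a) ⊥ →
      Tendsto (fun n => m (a n)) atTop (𝓝 0)) (ε : ℝ) (hε : 0 < ε) :
    ∃ δ > 0, ∀ a, μ a < δ → m a < ε := by
  by_contra hcon
  push Not at hcon
  choose a ha ha' using fun n : ℕ => hcon ((1 / 2 : ℝ) ^ n) (by positivity)
  choose s hs using fun n : ℕ => hσ (fun k => a (n + k))
  have hμs : ∀ n, μ (s n) ≤ 2 * (1 / 2 : ℝ) ^ n := by
    intro n
    have h1 : HasSum (fun k => (1 / 2 : ℝ) ^ n * (1 / 2 : ℝ) ^ k) ((1 / 2 : ℝ) ^ n * 2) :=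
      hasSum_geometric_two.mul_left _
    have h2 := h.le_of_hasSum (hs n) (b := fun k => (1 / 2 : ℝ) ^ n * (1 / 2 : ℝ) ^ k)
      (fun k => by
        rw [← pow_add]
        exact (ha (n + k)).le) h1
    linarith
  have hanti : Antitone s := by
    intro i j hij
    apply (hs j).2
    rintro x ⟨k, rfl⟩
    apply (hs i).1
    exact ⟨j - i + k, by simp only; congr 1; omega⟩
  have hglb : IsGLB (Set.range s) ⊥ := by
    constructor
    · intro x _
      exact bot_le
    · intro g hg
      by_contra hg0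
      have hg1 : g ≠ ⊥ := fun h => hg0 (h ▸ le_rfl)
      have h1 := h.2.1 g hg1
      have h2 : ∀ n, μ g ≤ 2 * (1 / 2 : ℝ) ^ n := fun n => (h.mono (hg ⟨n, rfl⟩)).trans (hμs n)
      have h3 : Tendsto (fun n : ℕ => 2 * (1 / 2 : ℝ) ^ n) atTop (𝓝 (2 * 0)) :=
        (tendsto_pow_atTop_nhds_zero_of_lt_one (by norm_num) (by norm_num)).const_mul 2
      have h4 := ge_of_tendsto' h3 h2
      linarith
  have h1 := hcont s hanti hglb
  have h2 := ge_of_tendsto' h1 (fun n => (ha' n).trans (hmono _ _ ((hs n).1 ⟨0, rfl⟩)))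
  linarith

end

section
variable {B : Type u} [CompleteBooleanAlgebra B]

/-- If all countably generated complete subalgebras carry measures, then a continuous outer measure
is uniformly exhaustive. -/
theorem unif_exh {m : B → ℝ} (hm : IsContOuter m)
    (H : ∀ C : BooleanSubalgebra B, CountGen C → ∃ μ : C → ℝ, IsMeasure μ) :
    ∀ ε > 0, ∃ r : ℕ, ∀ b : Fin (r + 1) → B, (∀ i j, i ≠ j → Disjoint (b i) (b j)) →
      ∃ i, m (b i) < ε := by
  intro ε hε
  by_contra hcon
  push Not at hcon
  choose b hb hb' using hcon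
  set S : Set B := ⋃ r, Set.range (b r) with hS
  set C : BooleanSubalgebra B := sInf {D | IsCompleteSub D ∧ S ⊆ D} with hC
  have hmemC : ∀ x, x ∈ C ↔ ∀ D : BooleanSubalgebra B, IsCompleteSub D ∧ S ⊆ D → x ∈ D := by
    intro x
    rw [hC, BooleanSubalgebra.mem_sInf]
    rfl
  have hCc : IsCompleteSub C := by
    intro X hX
    constructor
    · rw [hmemC]
      intro D hD
      exact (hD.1 X (fun x hx => (hmemC x).1 (hX hx) D hD)).1
    · rw [hmemC]
      intro D hD
      exact (hD.1 X (fun x hx => (hmemC x).1 (hX hx) D hD)).2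
  have hSC : S ⊆ C := by
    intro x hx
    rw [SetLike.mem_coe, hmemC]
    intro D hD
    exact hD.2 hx
  obtain ⟨μ, hμ⟩ := H C ⟨hCc, S, Set.countable_iUnion (fun r => Set.countable_range _), hSC,
    fun D hD hSD x hx => (hmemC x).1 hx D ⟨hD, hSD⟩⟩
  have hσ : ∀ a : ℕ → C, ∃ s, IsLUB (Set.range a) s := by
    intro a
    refine ⟨⟨sSup (Set.range (fun n => (a n : B))), (hCc _ (by
      rintro x ⟨n, rfl⟩
      exact (a n).2)).1⟩, ?_, ?_⟩
    · rintro x ⟨n, rfl⟩
      show (a n : B) ≤ _
      exact le_sSup ⟨n, rfl⟩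
    · intro x hx
      show _ ≤ (x : B)
      apply sSup_le
      rintro y ⟨n, rfl⟩
      exact hx ⟨n, rfl⟩
  obtain ⟨δ, hδ, hac⟩ := ac hσ hμ (m := fun c : C => m (c : B))
    (fun a b hab => hm.2.2.1 _ _ hab) (by
      intro a ha hglb
      apply hm.2.2.2.2 (fun n => (a n : B)) (fun i j hij => ha hij)
      have h1 : sInf (Set.range (fun n => (a n : B))) ∈ C := (hCc _ (by
        rintro x ⟨n, rfl⟩
        exact (a n).2)).2
      have h2 : (⟨_, h1⟩ : C) ≤ ⊥ := by
        apply hglb.2
        rintro x ⟨n, rfl⟩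
        show _ ≤ (a n : B)
        exact sInf_le ⟨n, rfl⟩
      exact le_bot_iff.1 h2) ε hε
  obtain ⟨r, hr⟩ := exists_nat_gt (μ ⊤ / δ)
  rw [div_lt_iff₀ hδ] at hr
  have hbC : ∀ i, b r i ∈ C := fun i => hSC (Set.mem_iUnion.2 ⟨r, i, rfl⟩)
  have h1 := hμ.finset_sup Finset.univ (fun i : Fin (r + 1) => (⟨b r i, hbC i⟩ : C)) (by
    intro i _ j _ hij
    rw [disjoint_iff]
    apply Subtype.ext
    show b r i ⊓ b r j = ⊥
    exact disjoint_iff.1 (hb r i j hij))
  have h2 : ∀ i, δ ≤ μ (⟨b r i, hbC i⟩ : C) := by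
    intro i
    by_contra h3
    have h4 := hac _ (not_le.1 h3)
    have h5 := hb' r i
    simp only at h4
    linarith
  have h3 : ∑ i : Fin (r + 1), δ ≤ ∑ i : Fin (r + 1), μ (⟨b r i, hbC i⟩ : C) :=
    Finset.sum_le_sum (fun i _ => h2 i)
  rw [Finset.sum_const, Finset.card_univ, Fintype.card_fin, nsmul_eq_mul] at h3
  have h4 : μ (Finset.univ.sup (fun i : Fin (r + 1) => (⟨b r i, hbC i⟩ : C))) ≤ μ ⊤ :=
    hμ.mono le_top
  push_cast at h3
  nlinarith

end

end Q204.KR
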